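import Pool.Agent.Helper69.RF.Bas

/-!
Module COO of project RF (MP_e74dc5_nt): integral basis of the real subfield of the
`2^(n+2)`-th cyclotomic field.
-/

set_option autoImplicit false

open Pool.Agent.Helper69.RF Helper62.Weber Polynomial

namespace Pool.Agent.Helper13.RF

theorem coo_conj (n : ℕ) : (starRingEnd ℂ) (zC n) = (zC n)⁻¹ := by
  have h : ‖zC n‖ = 1 := (zC_prim n).norm'_eq_one (by positivity)
  exact (Complex.inv_eq_conj h).symm

theorem coo_inv (n k : ℕ) (hk : k ≤ 2 ^ (n + 1)) :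
    (zC n ^ k)⁻¹ = -zC n ^ (2 ^ (n + 1) - k) := by
  have h1 : zC n ^ (2 ^ (n + 1) - k) * zC n ^ k = -1 := by
    rw [← pow_add, Nat.sub_add_cancel hk, zC_half]
  apply inv_eq_of_mul_eq_one_left
  rw [neg_mul, h1, neg_neg]

/-- `x` is an integer polynomial in the root of unity -/
theorem coo_poly (n : ℕ) (x : ℝ) (p : ℚ[X]) (hx : IsIntegral ℤ x) (hp : x = aeval (XR n) p) :
    ∃ f : ℤ[X], ((x : ℝ) : ℂ) = aeval (zC n) f := by
  have e0 : ((aeval (xB n) p : B n) : ℝ) = x := by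
    rw [hp]
    exact (aeval_algHom_apply (B n).val (xB n) p).symm
  have h1 : IsIntegral ℤ (aeval (xB n) p : B n) := int_coe (by rw [e0]; exact hx)
  have h2 : IsIntegral ℤ (iB n (aeval (xB n) p)) := h1.map ((iB n).restrictScalars ℤ)
  have : Fact (Nat.Prime 2) := ⟨Nat.prime_two⟩
  have := IsCyclotomicExtension.Rat.isIntegralClosure_adjoin_singleton_of_prime_pow
    (p := 2) (k := n + 2) (z_prim n)
  obtain ⟨v, hv⟩ := (IsIntegralClosure.isIntegral_iff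
    (A := Algebra.adjoin ℤ ({z n} : Set (L n)))).1 h2
  have h3 : (v : L n) ∈ (aeval (z n) : ℤ[X] →ₐ[ℤ] L n).range := by
    rw [← Algebra.adjoin_singleton_eq_range_aeval]
    exact v.2
  obtain ⟨f, hf⟩ := h3
  refine ⟨f, ?_⟩
  have h4 : (iB n (aeval (xB n) p) : L n) = aeval (z n) f := by
    rw [← hv]
    exact hf.symm
  have h5 : ((aeval (z n) f : L n) : ℂ) = aeval (zC n) f :=
    (aeval_algHom_apply ((L n).val.restrictScalars ℤ) (z n) f).symm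
  rw [← h5, ← h4, iB_coe, e0]

theorem coo_red (n : ℕ) (f : ℤ[X]) : ∃ b : ℕ → ℤ,
    aeval (zC n) f = ∑ k ∈ Finset.range (2 ^ (n + 1)), (b k : ℂ) * zC n ^ k := by
  have hN : 2 ^ (n + 1) ≠ 0 := by positivity
  have hg : (X ^ 2 ^ (n + 1) + C 1 : ℤ[X]).Monic := monic_X_pow_add_C 1 hN
  have hd : (X ^ 2 ^ (n + 1) + C 1 : ℤ[X]).natDegree = 2 ^ (n + 1) := natDegree_X_pow_add_C
  have h1 : aeval (zC n) (X ^ 2 ^ (n + 1) + C 1 : ℤ[X]) = 0 := by
    rw [map_add, map_pow, aeval_X, zC_half, aeval_C, map_one]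
    ring
  refine ⟨fun k => (f %ₘ (X ^ 2 ^ (n + 1) + C 1)).coeff k, ?_⟩
  have h2 : aeval (zC n) f = aeval (zC n) (f %ₘ (X ^ 2 ^ (n + 1) + C 1)) := by
    have h3 := congrArg (aeval (zC n)) (modByMonic_add_div f (X ^ 2 ^ (n + 1) + C 1 : ℤ[X]))
    rw [map_add, map_mul, h1, zero_mul, add_zero] at h3
    exact h3.symm
  have h4 : (f %ₘ (X ^ 2 ^ (n + 1) + C 1)).natDegree < 2 ^ (n + 1) := by
    have h5 := natDegree_modByMonic_lt f hg (by
      intro h6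
      rw [h6, natDegree_one] at hd
      exact hN hd.symm)
    rwa [hd] at h5
  rw [h2, aeval_eq_sum_range' h4]
  apply Finset.sum_congr rfl
  intro k _
  rw [zsmul_eq_mul]

theorem coo_refl (n : ℕ) (n0 : ℕ) (b : ℕ → ℤ) (x : ℝ) (_ : n0 = 2 ^ (n + 1))
    (h : ((x : ℝ) : ℂ) = ∑ k ∈ Finset.range (2 ^ (n + 1)), (b k : ℂ) * zC n ^ k) :
    ((x : ℝ) : ℂ) = ∑ k ∈ Finset.range (2 ^ (n + 1)), (b k : ℂ) * (zC n ^ k)⁻¹ := by
  have h1 := congrArg (starRingEnd ℂ) h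
  rw [Complex.conj_ofReal, map_sum] at h1
  rw [h1]
  apply Finset.sum_congr rfl
  intro k _
  rw [map_mul, map_pow, coo_conj, inv_pow, map_intCast]

theorem coo_anti (n : ℕ) (b : ℕ → ℤ) (x : ℝ)
    (h : ((x : ℝ) : ℂ) = ∑ k ∈ Finset.range (2 ^ (n + 1)), (b k : ℂ) * zC n ^ k) (k : ℕ)
    (h1 : 1 ≤ k) (h2 : k < 2 ^ (n + 1)) : b (2 ^ (n + 1) - k) = -b k := by
  have hN : 0 < 2 ^ (n + 1) := by positivity
  have h3 := coo_refl n _ b x rfl h
  have key : ∑ k ∈ Finset.range (2 ^ (n + 1)),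
      (((if k = 0 then 0 else b k + b (2 ^ (n + 1) - k)) : ℤ) : ℂ) * zC n ^ k = 0 := by
    rw [h] at h3
    rw [Finset.range_eq_Ico, Finset.sum_eq_sum_Ico_succ_bot hN,
      Finset.sum_eq_sum_Ico_succ_bot hN] at h3
    rw [Finset.range_eq_Ico, Finset.sum_eq_sum_Ico_succ_bot hN]
    have h4 : ∑ k ∈ Finset.Ico (0 + 1) (2 ^ (n + 1)), (b k : ℂ) * (zC n ^ k)⁻¹ =
        ∑ k ∈ Finset.Ico (0 + 1) (2 ^ (n + 1)),
          (fun i => -((b (2 ^ (n + 1) - i) : ℤ) : ℂ) * zC n ^ i) (2 ^ (n + 1) - k) := by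
      apply Finset.sum_congr rfl
      intro k hk
      rw [Finset.mem_Ico] at hk
      simp only
      rw [coo_inv n k hk.2.le, Nat.sub_sub_self hk.2.le]
      ring
    have h8 := h4.trans (Finset.sum_Ico_reflect
      (fun i => -((b (2 ^ (n + 1) - i) : ℤ) : ℂ) * zC n ^ i) (0 + 1)
      (show 2 ^ (n + 1) ≤ 2 ^ (n + 1) + 1 by omega))
    have h5 : 2 ^ (n + 1) + 1 - 2 ^ (n + 1) = 0 + 1 := by omega
    have h6 : 2 ^ (n + 1) + 1 - (0 + 1) = 2 ^ (n + 1) := by omega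
    rw [h5, h6] at h8
    rw [h8, pow_zero, inv_one] at h3
    have h7 : ∑ k ∈ Finset.Ico (0 + 1) (2 ^ (n + 1)),
        (((if k = 0 then 0 else b k + b (2 ^ (n + 1) - k)) : ℤ) : ℂ) * zC n ^ k =
        ∑ k ∈ Finset.Ico (0 + 1) (2 ^ (n + 1)), (b k : ℂ) * zC n ^ k -
        ∑ k ∈ Finset.Ico (0 + 1) (2 ^ (n + 1)),
          -((b (2 ^ (n + 1) - k) : ℤ) : ℂ) * zC n ^ k := by
      rw [← Finset.sum_sub_distrib]
      apply Finset.sum_congr rfl
      intro k hk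
      rw [Finset.mem_Ico] at hk
      rw [if_neg (by omega)]
      push_cast
      ring
    rw [if_pos rfl, h7]
    simp only [Int.cast_zero, zero_mul, zero_add, pow_zero, mul_one] at h3 ⊢
    linear_combination h3
  have h4 := indep n _ key k h2
  rw [if_neg (by omega)] at h4
  omega

theorem coo_cR (n k : ℕ) (hk : k ≤ 2 ^ (n + 1)) : cR n (2 ^ (n + 1) - k) = -cR n k := by
  have h : 2 * Real.pi * ((2 ^ (n + 1) - k : ℕ) : ℝ) / 2 ^ (n + 2) =
      Real.pi - 2 * Real.pi * (k : ℝ) / 2 ^ (n + 2) := by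
    rw [Nat.cast_sub hk]
    push_cast
    field_simp
    ring
  rw [cR, cR, h, Real.cos_pi_sub]
  ring

theorem coo_mid (n : ℕ) : cR n (2 ^ n) = 0 := by
  have h := coo_cR n (2 ^ n) (by rw [pow_succ]; omega)
  have h1 : 2 ^ (n + 1) - 2 ^ n = 2 ^ n := by rw [pow_succ]; omega
  rw [h1] at h
  linarith

theorem cCOO : COO := by
  intro n x p hx hp
  obtain ⟨f, hf⟩ := coo_poly n x p hx hp
  obtain ⟨b, hb⟩ := coo_red n f
  rw [hb] at hf
  refine ⟨b, ?_⟩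
  have hM : 0 < 2 ^ n := by positivity
  have hN : 2 ^ (n + 1) = 2 ^ n + 2 ^ n := by rw [pow_succ]; ring
  have h1 := coo_refl n _ b x rfl hf
  have h2 : 2 * x = ∑ k ∈ Finset.range (2 ^ (n + 1)), (b k : ℝ) * cR n k := by
    have h3 : ((2 * x : ℝ) : ℂ) =
        ((∑ k ∈ Finset.range (2 ^ (n + 1)), (b k : ℝ) * cR n k : ℝ) : ℂ) := by
      push_cast
      rw [two_mul]
      conv_lhs =>
        congr
        · rw [hf]
        · rw [h1]
      rw [← Finset.sum_add_distrib]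
      apply Finset.sum_congr rfl
      intro k _
      rw [cR_C]
      ring
    exact_mod_cast h3
  have h3 : ∑ k ∈ Finset.Ico (2 ^ n + 1) (2 ^ (n + 1)), (b k : ℝ) * cR n k =
      ∑ k ∈ Finset.Ico 1 (2 ^ n), (b k : ℝ) * cR n k := by
    have h4 : ∑ k ∈ Finset.Ico (2 ^ n + 1) (2 ^ (n + 1)), (b k : ℝ) * cR n k =
        ∑ k ∈ Finset.Ico (2 ^ n + 1) (2 ^ (n + 1)),
          (fun i => (b i : ℝ) * cR n i) (2 ^ (n + 1) - k) := by
      apply Finset.sum_congr rfl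
      intro k hk
      rw [Finset.mem_Ico] at hk
      simp only
      rw [coo_cR n k hk.2.le, coo_anti n b x hf k (by omega) hk.2]
      push_cast
      ring
    have h8 := h4.trans (Finset.sum_Ico_reflect (fun i => (b i : ℝ) * cR n i) (2 ^ n + 1)
      (show 2 ^ (n + 1) ≤ 2 ^ (n + 1) + 1 by omega))
    have h5 : 2 ^ (n + 1) + 1 - 2 ^ (n + 1) = 1 := by omega
    have h6 : 2 ^ (n + 1) + 1 - (2 ^ n + 1) = 2 ^ n := by omega
    rw [h5, h6] at h8
    exact h8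
  have h4 : ∑ k ∈ Finset.range (2 ^ (n + 1)), (b k : ℝ) * cR n k =
      (b 0 : ℝ) * cR n 0 + (∑ k ∈ Finset.Ico 1 (2 ^ n), (b k : ℝ) * cR n k +
        ((b (2 ^ n) : ℝ) * cR n (2 ^ n) +
          ∑ k ∈ Finset.Ico (2 ^ n + 1) (2 ^ (n + 1)), (b k : ℝ) * cR n k)) := by
    rw [Finset.range_eq_Ico, Finset.sum_eq_sum_Ico_succ_bot (by positivity),
      ← Finset.sum_Ico_consecutive _ (show 0 + 1 ≤ 2 ^ n by omega)
        (show 2 ^ n ≤ 2 ^ (n + 1) by omega),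
      Finset.sum_eq_sum_Ico_succ_bot (show 2 ^ n < 2 ^ (n + 1) by omega)]
  rw [h4, h3, coo_mid, cR_zero] at h2
  linarith

end Pool.Agent.Helper13.RF
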